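import Pool.Agent.H27.KF.Stm
import Pool.Graph.R_pool_sql_team_seeded_efc1946e.K1H3.GT.Momt

/-! Crew KF, part MOM. -/

set_option autoImplicit false

namespace Pool.Agent.H19.KF

open Finset Pool.Agent.H27.KF Pool.Agent.K1H88.GT Pool.Agent.K1H3.GT

/-- the frequencies -/
noncomputable def gf (p : ℕ) (q : ℕ × ℕ) : ZMod p :=
  ((q.1 - q.2 : ℕ) : ZMod p)⁻¹ - ((q.1 : ℕ) : ZMod p)⁻¹

lemma kl_eq (p : ℕ) [NeZero p] (a : ZMod p) (n : ℕ) :
    kl p a n = (((ArithmeticFunction.moebius n : ℤ) : ℝ) : ℂ) *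
      ZMod.stdAddChar (a * (n : ZMod p)⁻¹) := by
  unfold kl
  push_cast
  rfl

lemma conj_kl (p : ℕ) [NeZero p] (a : ZMod p) (n : ℕ) :
    (starRingEnd ℂ) (kl p a n) = (((ArithmeticFunction.moebius n : ℤ) : ℝ) : ℂ) *
      ZMod.stdAddChar (-(a * (n : ZMod p)⁻¹)) := by
  rw [kl_eq, map_mul, Complex.conj_ofReal, AddChar.map_neg_eq_conj]

lemma ZZ_kl (p : ℕ) [NeZero p] (a : ZMod p) (U1 U2 j : ℕ) :
    ZZ (kl p a) U1 U2 j = ∑ q ∈ Ioc (U1 + j) (U2 + j) ×ˢ Icc 1 j,
      (cf q : ℂ) * ZMod.stdAddChar (a * gf p q) := by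
  unfold ZZ DD
  rw [Finset.sum_product]
  refine Finset.sum_nbij' (fun u => u + j + 1) (fun m => m - j - 1) ?_ ?_ ?_ ?_ ?_
  · intro u hu
    simp only [Finset.mem_Ico, Finset.mem_Ioc] at hu ⊢
    omega
  · intro u hu
    simp only [Finset.mem_Ico, Finset.mem_Ioc] at hu ⊢
    omega
  · intro u hu
    simp only [Finset.mem_Ico] at hu
    omega
  · intro u hu
    simp only [Finset.mem_Ioc] at hu
    omega
  · intro u hu
    rw [Finset.mul_sum]
    refine Finset.sum_nbij' (fun n => u + j + 1 - n) (fun h => u + j + 1 - h) ?_ ?_ ?_ ?_ ?_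
    · intro n hn
      simp only [Finset.mem_Icc, Finset.mem_Ioc] at hn ⊢
      omega
    · intro n hn
      simp only [Finset.mem_Icc, Finset.mem_Ioc] at hn ⊢
      omega
    · intro n hn
      simp only [Finset.mem_Ioc] at hn
      omega
    · intro n hn
      simp only [Finset.mem_Icc] at hn
      omega
    · intro n hn
      simp only [Finset.mem_Ioc] at hn
      have e : u + j + 1 - (u + j + 1 - n) = n := by omega
      rw [conj_kl, kl_eq]
      unfold cf gf
      simp only [e]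
      rw [show ∀ a b c d : ℂ, a * b * (c * d) = (a * c) * (d * b) by intros; ring,
        ← AddChar.map_add_eq_mul]
      rw [mul_sub, sub_eq_add_neg, Complex.ofReal_mul]

theorem t_MOM : S_MOM := by
  intro p hp U1 U2 j
  classical
  have : NeZero p := ⟨hp.out.ne_zero⟩
  set P : Finset (ℕ × ℕ) := Ioc (U1 + j) (U2 + j) ×ˢ Icc 1 j with hP
  have hquad : quad (U1 + j) (U2 + j) j = P ×ˢ P := rfl
  have hkey : (∑ a : ZMod p, ‖ZZ (kl p a) U1 U2 j‖ ^ 2) =
      ∑ q ∈ P ×ˢ P, cf q.1 * cf q.2 * (if gf p q.1 - gf p q.2 = 0 then (p : ℝ) else 0) := by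
    apply Complex.ofReal_injective
    push_cast
    have h1 : ∀ a : ZMod p, ((‖ZZ (kl p a) U1 U2 j‖ : ℂ)) ^ 2 =
        ∑ q ∈ P ×ˢ P, (cf q.1 : ℂ) * (cf q.2 : ℂ) *
          ZMod.stdAddChar (a * (gf p q.1 - gf p q.2)) := by
      intro a
      rw [← Complex.mul_conj', ZZ_kl, map_sum, Finset.sum_mul_sum, ← Finset.sum_product']
      refine Finset.sum_congr rfl fun q _ => ?_
      rw [RingHom.map_mul, Complex.conj_ofReal, ← AddChar.map_neg_eq_conj,
        show ∀ a b c d : ℂ, a * b * (c * d) = (a * c) * (b * d) by intros; ring,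
        ← AddChar.map_add_eq_mul]
      congr 2
      ring
    simp only [h1]
    rw [Finset.sum_comm]
    refine Finset.sum_congr rfl fun q _ => ?_
    rw [← Finset.mul_sum, AddChar.sum_mulShift _ (ZMod.isPrimitive_stdAddChar p), ZMod.card]
    split_ifs <;> simp
  rw [hkey]
  unfold solK
  rw [hquad, Finset.card_filter]
  push_cast
  rw [Finset.mul_sum]
  refine Finset.sum_le_sum fun q _ => ?_
  have hc : ∀ p : ℕ × ℕ, |cf p| ≤ 1 := by
    intro p
    unfold cf
    rw [abs_mul]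
    exact mul_le_one₀ (mu_le _) (abs_nonneg _) (mu_le _)
  have h4 : cf q.1 * cf q.2 ≤ 1 := by
    refine (le_abs_self _).trans ?_
    rw [abs_mul]
    exact mul_le_one₀ (hc _) (abs_nonneg _) (hc _)
  have hp0 : (0 : ℝ) ≤ p := Nat.cast_nonneg _
  show _ ≤ (p : ℝ) * (if gf p q.1 = gf p q.2 then (1 : ℝ) else 0)
  by_cases h : gf p q.1 - gf p q.2 = 0
  · rw [if_pos h, if_pos (sub_eq_zero.1 h)]
    nlinarith
  · rw [if_neg h, if_neg (fun h' => h (sub_eq_zero.2 h')), mul_zero, mul_zero]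

end Pool.Agent.H19.KF
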