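import Pool.Agent.H27.KF.Stm
import Pool.Graph.R_pool_sql_team_seeded_efc1946e.K1H96.GT2.CNTP

/-! Crew KF, part REP. -/

set_option autoImplicit false

namespace Pool.Agent.H19.KF

open Finset Polynomial Pool.Agent.H27.KF

lemma rep_half (P : ℤ[X]) (hP : 2 ≤ P.natDegree) (Y : ℕ) (d : ℤ) (hd : d ≠ 0) :
    (((range (Y + 1)) ×ˢ (range (Y + 1))).filter (fun q : ℕ × ℕ =>
      q.2 < q.1 ∧ P.eval (q.1 : ℤ) - P.eval (q.2 : ℤ) = d)).card ≤
      P.natDegree * (Nat.divisors d.natAbs).card := by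
  classical
  apply card_le_mul_card_image_of_maps_to (f := fun q : ℕ × ℕ => q.1 - q.2)
  · intro q hq
    obtain ⟨h1, h2, h3⟩ := mem_filter.1 hq
    rw [Nat.mem_divisors]
    refine ⟨?_, Int.natAbs_ne_zero.2 hd⟩
    have h4 := Polynomial.sub_dvd_eval_sub ((q.1 : ℕ) : ℤ) ((q.2 : ℕ) : ℤ) P
    rw [h3] at h4
    have h5 : ((q.1 : ℕ) : ℤ) - ((q.2 : ℕ) : ℤ) = ((q.1 - q.2 : ℕ) : ℤ) := by omega
    rw [h5] at h4
    exact Int.natCast_dvd.1 h4
  · intro h hh
    have hh1 : 1 ≤ h := Nat.pos_of_mem_divisors hh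
    obtain ⟨Q, hQ⟩ : ∃ Q, Q = P - P.comp (X - C (h : ℤ)) - C d := ⟨_, rfl⟩
    have hQ0 : Q ≠ 0 := by
      rw [hQ]; exact Pool.Agent.K1H96.GT2.CNTP.poly_ne P hP h hh1 d
    have hQd : Q.natDegree ≤ P.natDegree := by
      rw [hQ]
      refine (natDegree_sub_le _ _).trans
        (max_le ((natDegree_sub_le _ _).trans (max_le le_rfl ?_)) ?_)
      · rw [natDegree_comp, natDegree_X_sub_C, mul_one]
      · rw [natDegree_C]; omega
    calc _ ≤ Q.roots.toFinset.card := by
          apply card_le_card_of_injOn (fun q : ℕ × ℕ => (q.1 : ℤ))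
          · intro q hq
            obtain ⟨h1, h2⟩ := mem_filter.1 hq
            obtain ⟨h3, h4, h5⟩ := mem_filter.1 h1
            rw [mem_coe, Multiset.mem_toFinset, mem_roots hQ0, IsRoot.def, hQ]
            have e1 : (q.1 : ℤ) - (h : ℤ) = (q.2 : ℤ) := by omega
            simp only [eval_sub, eval_comp, eval_X, eval_C]
            rw [e1]
            linarith
          · intro q hq q' hq' he
            obtain ⟨h1, h2⟩ := mem_filter.1 hq
            obtain ⟨h3, h4, h5⟩ := mem_filter.1 h1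
            obtain ⟨h1', h2'⟩ := mem_filter.1 hq'
            obtain ⟨h3', h4', h5'⟩ := mem_filter.1 h1'
            have he' : (q.1 : ℤ) = (q'.1 : ℤ) := he
            have e1 : q.1 = q'.1 := by exact_mod_cast he'
            exact Prod.ext e1 (by omega)
      _ ≤ Multiset.card Q.roots := Multiset.toFinset_card_le _
      _ ≤ Q.natDegree := card_roots' Q
      _ ≤ _ := hQd

theorem t_REP : S_REP := by
  classical
  intro P hP η hη
  obtain ⟨k, hk⟩ : ∃ k, k = P.natDegree := ⟨_, rfl⟩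
  have hk2 : 2 ≤ k := by rw [hk]; exact hP
  have hkr : (0 : ℝ) < k := by exact_mod_cast (show 0 < k by omega)
  obtain ⟨K, hK, hKb⟩ := Pool.Agent.K1H96.GT2.CNTP.eval_bound P
  obtain ⟨C2, hC2, hdiv⟩ := H353.divisor_bound_real (η / k) (by positivity)
  refine ⟨2 * k * (C2 * (2 * K) ^ (η / k)), by positivity, fun Y d hY hd => ?_⟩
  have hYr : (1 : ℝ) ≤ Y := by exact_mod_cast hY
  have hY0 : (0 : ℝ) < Y := by linarith
  rcases Finset.eq_empty_or_nonempty (((range (Y + 1)) ×ˢ (range (Y + 1))).filter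
      (fun q : ℕ × ℕ => P.eval (q.1 : ℤ) - P.eval (q.2 : ℤ) = d)) with he | ⟨q, hq⟩
  · rw [he, card_empty, Nat.cast_zero]
    positivity
  · -- the size of `d`
    obtain ⟨h1, h2⟩ := mem_filter.1 hq
    have h3 := mem_product.1 h1
    rw [mem_range, mem_range] at h3
    have hdY : (d.natAbs : ℝ) ≤ 2 * K * (Y : ℝ) ^ k := by
      rw [Nat.cast_natAbs, Int.cast_abs]
      have e1 := hKb Y q.1 hY (by omega)
      have e2 := hKb Y q.2 hY (by omega)
      rw [← hk] at e1 e2
      rw [← h2]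
      push_cast
      have e3 := abs_sub (((P.eval (q.1 : ℤ) : ℤ) : ℝ)) (((P.eval (q.2 : ℤ) : ℤ) : ℝ))
      calc _ ≤ |((P.eval (q.1 : ℤ) : ℤ) : ℝ)| + |((P.eval (q.2 : ℤ) : ℤ) : ℝ)| := e3
        _ ≤ 2 * K * (Y : ℝ) ^ k := by linarith
    have hτ : ((Nat.divisors d.natAbs).card : ℝ) ≤ C2 * (2 * K) ^ (η / k) * (Y : ℝ) ^ η := by
      refine (hdiv _ (Int.natAbs_ne_zero.2 hd)).trans ?_
      rw [mul_assoc]
      refine mul_le_mul_of_nonneg_left ?_ hC2.le
      calc (d.natAbs : ℝ) ^ (η / k) ≤ (2 * K * (Y : ℝ) ^ k) ^ (η / k) :=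
            Real.rpow_le_rpow (Nat.cast_nonneg _) hdY (by positivity)
        _ = (2 * K) ^ (η / k) * ((Y : ℝ) ^ k) ^ (η / k) :=
            Real.mul_rpow (by positivity) (by positivity)
        _ = (2 * K) ^ (η / k) * (Y : ℝ) ^ η := by
            congr 1
            rw [← Real.rpow_natCast, ← Real.rpow_mul hY0.le]
            congr 1
            field_simp
    have hA := rep_half P hP Y d hd
    have hB := rep_half P hP Y (-d) (neg_ne_zero.2 hd)
    rw [Int.natAbs_neg] at hB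
    have hsplit : (((range (Y + 1)) ×ˢ (range (Y + 1))).filter
        (fun q : ℕ × ℕ => P.eval (q.1 : ℤ) - P.eval (q.2 : ℤ) = d)).card ≤
        (((range (Y + 1)) ×ˢ (range (Y + 1))).filter (fun q : ℕ × ℕ =>
          q.2 < q.1 ∧ P.eval (q.1 : ℤ) - P.eval (q.2 : ℤ) = d)).card +
        (((range (Y + 1)) ×ˢ (range (Y + 1))).filter (fun q : ℕ × ℕ =>
          q.2 < q.1 ∧ P.eval (q.1 : ℤ) - P.eval (q.2 : ℤ) = -d)).card := by
      have hsw : (((range (Y + 1)) ×ˢ (range (Y + 1))).filter (fun q : ℕ × ℕ =>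
          q.1 < q.2 ∧ P.eval (q.1 : ℤ) - P.eval (q.2 : ℤ) = d)).card ≤
          (((range (Y + 1)) ×ˢ (range (Y + 1))).filter (fun q : ℕ × ℕ =>
          q.2 < q.1 ∧ P.eval (q.1 : ℤ) - P.eval (q.2 : ℤ) = -d)).card := by
        apply card_le_card_of_injOn Prod.swap
        · intro q hq
          obtain ⟨h1, h2, h3⟩ := mem_filter.1 hq
          rw [mem_coe, mem_filter]
          have h4 := mem_product.1 h1
          refine ⟨mem_product.2 ⟨h4.2, h4.1⟩, h2, ?_⟩
          simp only [Prod.fst_swap, Prod.snd_swap]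
          linarith
        · exact Prod.swap_injective.injOn
      refine le_trans ?_ (Nat.add_le_add_left hsw _)
      refine le_trans (card_le_card ?_) (card_union_le _ _)
      intro q hq
      obtain ⟨h1, h2⟩ := mem_filter.1 hq
      rw [mem_union, mem_filter, mem_filter]
      rcases lt_trichotomy q.2 q.1 with h | h | h
      · exact Or.inl ⟨h1, h, h2⟩
      · exfalso
        rw [h, sub_self] at h2
        exact hd h2.symm
      · exact Or.inr ⟨h1, h, h2⟩
    have hall : (((range (Y + 1)) ×ˢ (range (Y + 1))).filter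
        (fun q : ℕ × ℕ => P.eval (q.1 : ℤ) - P.eval (q.2 : ℤ) = d)).card ≤
        2 * (k * (Nat.divisors d.natAbs).card) := by
      rw [hk]; omega
    calc ((((range (Y + 1)) ×ˢ (range (Y + 1))).filter
        (fun q : ℕ × ℕ => P.eval (q.1 : ℤ) - P.eval (q.2 : ℤ) = d)).card : ℝ)
        ≤ 2 * (k * ((Nat.divisors d.natAbs).card : ℝ)) := by exact_mod_cast hall
      _ ≤ 2 * (k * (C2 * (2 * K) ^ (η / k) * (Y : ℝ) ^ η)) := by gcongr
      _ = 2 * k * (C2 * (2 * K) ^ (η / k)) * (Y : ℝ) ^ η := by ring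

end Pool.Agent.H19.KF
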